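import Pool.Agent.V11294.Tri.Rec

open Finset

namespace V11294.Tri

theorem fr_pos (k : ℕ) : 0 < fr k := by
  unfold fr
  apply Finset.sum_pos'
  · intro j _; positivity
  · exact ⟨0, by simp, by simp⟩

theorem Sq_pos (n : ℕ) : 0 < Sq n := by
  unfold Sq
  apply Finset.sum_pos'
  · intro k _; have := fr_pos k; positivity
  · exact ⟨0, by simp, by have := fr_pos 0; simpa using this⟩

/-- ratio -/
def aq (n : ℕ) : ℚ := Sq (n + 1) / Sq n

theorem aq_pos (n : ℕ) : 0 < aq n := div_pos (Sq_pos _) (Sq_pos _)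

theorem aq_rec (n : ℕ) : q3 n * aq (n + 2) * aq (n + 1) * aq n = q2 n * aq (n + 1) * aq n - q1 n * aq n + q0 n := by
  have h := Sq_rec n
  have h0 := (Sq_pos n).ne'
  have h1 := (Sq_pos (n + 1)).ne'
  have h2 := (Sq_pos (n + 2)).ne'
  unfold aq
  have e1 : Sq (n + 2 + 1) = Sq (n + 3) := rfl
  have e2 : Sq (n + 1 + 1) = Sq (n + 2) := rfl
  rw [e1, e2]
  field_simp
  linear_combination h

def lP (b n : ℚ) : ℚ := 27 * n ^ 4 - 54 * n ^ 3 + 102 * n ^ 2 - 168 * n + b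

theorem lin_pos {p q x1 x2 x : ℚ} (h1 : x1 ≤ x) (h2 : x ≤ x2) (hp : 0 < p * x1 + q) (hq : 0 < p * x2 + q) :
    0 < p * x + q := by
  rcases le_total 0 p with h | h
  · nlinarith
  · nlinarith

theorem bilin_pos {α β γ x1 x2 x y1 y2 y : ℚ} (hx1 : x1 ≤ x) (hx2 : x ≤ x2) (hy1 : y1 ≤ y) (hy2 : y ≤ y2)
    (h11 : 0 < α * y1 * x1 - β * x1 + γ) (h12 : 0 < α * y2 * x1 - β * x1 + γ)
    (h21 : 0 < α * y1 * x2 - β * x2 + γ) (h22 : 0 < α * y2 * x2 - β * x2 + γ) :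
    0 < α * y * x - β * x + γ := by
  have e1 : 0 < (α * x1) * y + (- β * x1 + γ) :=
    lin_pos hy1 hy2 (by linarith [mul_comm (α * x1) y1, h11, (by ring : α * y1 * x1 = (α * x1) * y1)])
      (by linarith [(by ring : α * y2 * x1 = (α * x1) * y2)])
  have e2 : 0 < (α * x2) * y + (- β * x2 + γ) :=
    lin_pos hy1 hy2 (by linarith [(by ring : α * y1 * x2 = (α * x2) * y1)])
      (by linarith [(by ring : α * y2 * x2 = (α * x2) * y2)])
  have e3 : 0 < (α * y - β) * x + γ :=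
    lin_pos hx1 hx2 (by linarith [(by ring : (α * y - β) * x1 = (α * x1) * y - β * x1)])
      (by linarith [(by ring : (α * y - β) * x2 = (α * x2) * y - β * x2)])
  linarith [(by ring : (α * y - β) * x = α * y * x - β * x)]

/-- numerator of the corner expression -/
def cN (bx byy bz n : ℚ) : ℚ :=
  (q2 n * (n + 2) ^ 4 - q3 n * lP bz (n + 2)) * lP byy (n + 1) * lP bx n
    - q1 n * lP bx n * (n + 1) ^ 4 * (n + 2) ^ 4 + q0 n * n ^ 4 * (n + 1) ^ 4 * (n + 2) ^ 4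

theorem cN_eq (bx byy bz n : ℚ) (h0 : n ≠ 0) (h1 : n + 1 ≠ 0) (h2 : n + 2 ≠ 0) :
    (q2 n - q3 n * (lP bz (n + 2) / (n + 2) ^ 4)) * (lP byy (n + 1) / (n + 1) ^ 4) * (lP bx n / n ^ 4)
      - q1 n * (lP bx n / n ^ 4) + q0 n = cN bx byy bz n / (n ^ 4 * (n + 1) ^ 4 * (n + 2) ^ 4) := by
  unfold cN
  generalize lP bx n = x
  generalize lP byy (n + 1) = y
  generalize lP bz (n + 2) = z
  generalize q0 n = a0
  generalize q1 n = a1
  generalize q2 n = a2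
  generalize q3 n = a3
  field_simp

theorem c1 (m : ℚ) (hm : 0 ≤ m) : 0 < cN 162 162 162 (m + 5) := by
  unfold cN lP q0 q1 q2 q3; ring_nf; positivity
theorem c2 (m : ℚ) (hm : 0 ≤ m) : 0 < cN 162 270 162 (m + 5) := by
  unfold cN lP q0 q1 q2 q3; ring_nf; positivity
theorem c3 (m : ℚ) (hm : 0 ≤ m) : 0 < cN 270 162 162 (m + 5) := by
  unfold cN lP q0 q1 q2 q3; ring_nf; positivity
theorem c4 (m : ℚ) (hm : 0 ≤ m) : 0 < cN 270 270 162 (m + 5) := by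
  unfold cN lP q0 q1 q2 q3; ring_nf; positivity
theorem c5 (m : ℚ) (hm : 0 ≤ m) : 0 < - cN 162 162 270 (m + 5) := by
  unfold cN lP q0 q1 q2 q3; ring_nf; positivity
theorem c6 (m : ℚ) (hm : 0 ≤ m) : 0 < - cN 162 270 270 (m + 5) := by
  unfold cN lP q0 q1 q2 q3; ring_nf; positivity
theorem c7 (m : ℚ) (hm : 0 ≤ m) : 0 < - cN 270 162 270 (m + 5) := by
  unfold cN lP q0 q1 q2 q3; ring_nf; positivity
theorem c8 (m : ℚ) (hm : 0 ≤ m) : 0 < - cN 270 270 270 (m + 5) := by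
  unfold cN lP q0 q1 q2 q3; ring_nf; positivity
theorem lP_pos (m : ℚ) (hm : 0 ≤ m) : 0 < lP 162 (m + 5) := by
  unfold lP; ring_nf; positivity
theorem lP_pos' (m : ℚ) (hm : 0 ≤ m) : 0 < lP 270 (m + 5) := by
  unfold lP; ring_nf; positivity
theorem mono_c (m : ℚ) (hm : 0 ≤ m) : 0 < lP 162 (m + 5 + 1) * (m + 5) ^ 4 - lP 270 (m + 5) * (m + 5 + 1) ^ 4 := by
  unfold lP; ring_nf; positivity
theorem rlc_c (m : ℚ) (hm : 0 ≤ m) : 0 < lP 162 (m + 5 + 1) ^ 2 * ((m + 5) ^ 4 * (m + 5 + 2) ^ 4)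
    - lP 270 (m + 5) * lP 270 (m + 5 + 2) * (m + 5 + 1) ^ 8 := by
  unfold lP; ring_nf; positivity
theorem up27 (m : ℚ) (hm : 0 ≤ m) : 0 < 27 * (m + 5) ^ 4 - lP 270 (m + 5) := by
  unfold lP; ring_nf; positivity

theorem q3_pos (n : ℕ) : 0 < q3 n := by unfold q3; positivity

theorem bounds_step (n : ℕ) (hn : 5 ≤ n)
    (h0 : lP 162 n / (n : ℚ) ^ 4 ≤ aq n ∧ aq n ≤ lP 270 n / (n : ℚ) ^ 4)
    (h1 : lP 162 (n + 1) / ((n : ℚ) + 1) ^ 4 ≤ aq (n + 1) ∧ aq (n + 1) ≤ lP 270 (n + 1) / ((n : ℚ) + 1) ^ 4) :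
    lP 162 (n + 2) / ((n : ℚ) + 2) ^ 4 ≤ aq (n + 2) ∧ aq (n + 2) ≤ lP 270 (n + 2) / ((n : ℚ) + 2) ^ 4 := by
  obtain ⟨m, rfl⟩ : ∃ m, n = m + 5 := ⟨n - 5, by omega⟩
  set N : ℚ := ((m + 5 : ℕ) : ℚ) with hN
  have hNe : N = (m : ℚ) + 5 := by rw [hN]; push_cast; ring
  have hm : (0 : ℚ) ≤ m := by positivity
  have hN0 : 0 < N := by rw [hNe]; positivity
  have d0 : N ≠ 0 := hN0.ne'
  have d1 : N + 1 ≠ 0 := by positivity
  have d2 : N + 2 ≠ 0 := by positivity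
  have hD : 0 < N ^ 4 * (N + 1) ^ 4 * (N + 2) ^ 4 := by positivity
  have hr := aq_rec (m + 5)
  rw [← hN] at hr
  have hx := aq_pos (m + 5)
  have hy := aq_pos (m + 5 + 1)
  have hz := aq_pos (m + 5 + 2)
  have hq3 : 0 < q3 N := q3_pos (m + 5)
  set x := aq (m + 5) with hxd
  set y := aq (m + 5 + 1) with hyd
  set z := aq (m + 5 + 2) with hzd
  constructor
  · have hpos : 0 < (q2 N - q3 N * (lP 162 (N + 2) / (N + 2) ^ 4)) * y * x - q1 N * x + q0 N := by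
      apply bilin_pos h0.1 h0.2 h1.1 h1.2
      · rw [cN_eq _ _ _ _ d0 d1 d2]; apply div_pos _ hD; rw [hNe]; exact c1 m hm
      · rw [cN_eq _ _ _ _ d0 d1 d2]; apply div_pos _ hD; rw [hNe]; exact c2 m hm
      · rw [cN_eq _ _ _ _ d0 d1 d2]; apply div_pos _ hD; rw [hNe]; exact c3 m hm
      · rw [cN_eq _ _ _ _ d0 d1 d2]; apply div_pos _ hD; rw [hNe]; exact c4 m hm
    have h2 : 0 < (z - lP 162 (N + 2) / (N + 2) ^ 4) * (q3 N * y * x) := by
      have : (z - lP 162 (N + 2) / (N + 2) ^ 4) * (q3 N * y * x)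
          = (q2 N - q3 N * (lP 162 (N + 2) / (N + 2) ^ 4)) * y * x - q1 N * x + q0 N := by
        linear_combination hr
      rw [this]; exact hpos
    have h3 : 0 < q3 N * y * x := by positivity
    have h4 := (pos_iff_pos_of_mul_pos h2).2 h3
    linarith
  · have hneg : 0 < (-(q2 N - q3 N * (lP 270 (N + 2) / (N + 2) ^ 4))) * y * x - (- q1 N) * x + (- q0 N) := by
      have key : ∀ X Y : ℚ, (-(q2 N - q3 N * (lP 270 (N + 2) / (N + 2) ^ 4))) * Y * X - (- q1 N) * X + (- q0 N)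
          = - ((q2 N - q3 N * (lP 270 (N + 2) / (N + 2) ^ 4)) * Y * X - q1 N * X + q0 N) := by
        intro X Y; ring
      apply bilin_pos h0.1 h0.2 h1.1 h1.2
      · rw [key, cN_eq _ _ _ _ d0 d1 d2, ← neg_div]; apply div_pos _ hD; rw [hNe]; exact c5 m hm
      · rw [key, cN_eq _ _ _ _ d0 d1 d2, ← neg_div]; apply div_pos _ hD; rw [hNe]; exact c6 m hm
      · rw [key, cN_eq _ _ _ _ d0 d1 d2, ← neg_div]; apply div_pos _ hD; rw [hNe]; exact c7 m hm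
      · rw [key, cN_eq _ _ _ _ d0 d1 d2, ← neg_div]; apply div_pos _ hD; rw [hNe]; exact c8 m hm
    have h2 : 0 < (lP 270 (N + 2) / (N + 2) ^ 4 - z) * (q3 N * y * x) := by
      have : (lP 270 (N + 2) / (N + 2) ^ 4 - z) * (q3 N * y * x)
          = (-(q2 N - q3 N * (lP 270 (N + 2) / (N + 2) ^ 4))) * y * x - (- q1 N) * x + (- q0 N) := by
        linear_combination (-1) * hr
      rw [this]; exact hneg
    have h3 : 0 < q3 N * y * x := by positivity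
    have h4 := (pos_iff_pos_of_mul_pos h2).2 h3
    linarith

end V11294.Tri
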