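import Pool.Agent.V11294.Tri.Bnd

open Finset

namespace V11294.Tri

/-- `S(n) = Σ_{i+j≤n} (n!/(i! j! (n-i-j)!))^3` -/
def S (n : ℕ) : ℕ :=
  ∑ i ∈ range (n + 1), ∑ j ∈ range (n + 1 - i),
    (n.factorial / (i.factorial * j.factorial * (n - i - j).factorial)) ^ 3

theorem S_eq (n : ℕ) : (S n : ℚ) = Sq n := by
  unfold S Sq
  push_cast
  rw [← Finset.sum_range_reflect]
  apply Finset.sum_congr rfl
  intro k hk
  have hk' := Finset.mem_range.1 hk
  have e1 : n + 1 - (n + 1 - 1 - k) = k + 1 := by omega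
  rw [e1]
  unfold fr
  rw [Finset.mul_sum]
  apply Finset.sum_congr rfl
  intro j hj
  have hj' := Finset.mem_range.1 hj
  rw [← mul_pow]
  congr 1
  have e2 : n + 1 - 1 - k = n - k := by omega
  rw [e2, show n - (n - k) - j = k - j by omega]
  have h1 := Nat.choose_mul_factorial_mul_factorial (show k ≤ n by omega)
  have h2 := Nat.choose_mul_factorial_mul_factorial (show j ≤ k by omega)
  have h3 : n.factorial / ((n - k).factorial * j.factorial * (k - j).factorial) = n.choose k * k.choose j := by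
    apply Nat.div_eq_of_eq_mul_left
    · positivity
    · rw [← h1, ← h2]; ring
  rw [h3]; push_cast; ring

theorem S_pos (n : ℕ) : 0 < S n := by
  have := Sq_pos n
  rw [← S_eq] at this
  exact_mod_cast this

theorem S0 : S 0 = 1 := by decide +kernel
theorem S1 : S 1 = 3 := by decide +kernel
theorem S2 : S 2 = 27 := by decide +kernel
theorem S3 : S 3 = 381 := by decide +kernel
theorem S4 : S 4 = 6219 := by decide +kernel
theorem S5 : S 5 = 111753 := by decide +kernel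
theorem S6 : S 6 = 2151549 := by decide +kernel
theorem S7 : S 7 = 43497891 := by decide +kernel

theorem aq_eq (n : ℕ) : aq n = (S (n + 1) : ℚ) / S n := by
  unfold aq; rw [S_eq, S_eq]

theorem bounds (n : ℕ) : lP 162 ((n : ℚ) + 5) / ((n : ℚ) + 5) ^ 4 ≤ aq (n + 5) ∧
    aq (n + 5) ≤ lP 270 ((n : ℚ) + 5) / ((n : ℚ) + 5) ^ 4 := by
  have h : (lP 162 ((n : ℚ) + 5) / ((n : ℚ) + 5) ^ 4 ≤ aq (n + 5) ∧
      aq (n + 5) ≤ lP 270 ((n : ℚ) + 5) / ((n : ℚ) + 5) ^ 4) ∧
      (lP 162 ((n : ℚ) + 6) / ((n : ℚ) + 6) ^ 4 ≤ aq (n + 6) ∧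
      aq (n + 6) ≤ lP 270 ((n : ℚ) + 6) / ((n : ℚ) + 6) ^ 4) := by
    induction n with
    | zero =>
      rw [aq_eq, aq_eq]
      unfold lP
      norm_num [S5, S6, S7]
    | succ n ih =>
      obtain ⟨i0, i1⟩ := ih
      have h := bounds_step (n + 5) (by omega)
        (by push_cast; exact i0)
        (by push_cast; rw [show (n : ℚ) + 5 + 1 = n + 6 by ring]; exact i1)
      push_cast at h
      rw [show (n : ℚ) + 5 + 2 = n + 7 by ring] at h
      push_cast
      rw [show (n : ℚ) + 1 + 5 = n + 6 by ring, show (n : ℚ) + 1 + 6 = n + 7 by ring]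
      exact ⟨i1, h⟩
  exact h.1

/-- strictly increasing ratios -/
theorem aq_lt (n : ℕ) : aq n < aq (n + 1) := by
  by_cases h : 5 ≤ n
  · obtain ⟨m, rfl⟩ : ∃ m, n = m + 5 := ⟨n - 5, by omega⟩
    have b0 := (bounds m).2
    have b1 := (bounds (m + 1)).1
    have hc := mono_c m (by positivity)
    push_cast at b1
    have e : (m : ℚ) + 1 + 5 = m + 5 + 1 := by ring
    rw [e, show m + 1 + 5 = m + 5 + 1 by ring] at b1
    refine lt_of_le_of_lt b0 (lt_of_lt_of_le ?_ b1)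
    rw [div_lt_div_iff₀ (by positivity) (by positivity)]
    linarith
  · rw [aq_eq, aq_eq]
    interval_cases n <;> simp only [zero_add, Nat.reduceAdd, S0, S1, S2, S3, S4, S5, S6] <;> norm_num

/-- ratio log-concavity -/
theorem aq_rlc (n : ℕ) : aq n * aq (n + 2) < aq (n + 1) ^ 2 := by
  by_cases h : 5 ≤ n
  · obtain ⟨m, rfl⟩ : ∃ m, n = m + 5 := ⟨n - 5, by omega⟩
    have b0 := (bounds m).2
    have b1 := (bounds (m + 1)).1
    have b2 := (bounds (m + 2)).2
    have hc := rlc_c m (by positivity)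
    have p0 := aq_pos (m + 5)
    have p2 := aq_pos (m + 5 + 2)
    push_cast at b1 b2
    rw [show m + 1 + 5 = m + 5 + 1 by ring, show (m : ℚ) + 1 + 5 = m + 5 + 1 by ring] at b1
    rw [show m + 2 + 5 = m + 5 + 2 by ring, show (m : ℚ) + 2 + 5 = m + 5 + 2 by ring] at b2
    have hl : 0 < lP 162 ((m : ℚ) + 5 + 1) := by
      have := lP_pos ((m : ℚ) + 1) (by positivity)
      rwa [show (m : ℚ) + 1 + 5 = m + 5 + 1 by ring] at this
    have h1 : aq (m + 5) * aq (m + 5 + 2) ≤ (lP 270 ((m : ℚ) + 5) / ((m : ℚ) + 5) ^ 4)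
        * (lP 270 ((m : ℚ) + 5 + 2) / ((m : ℚ) + 5 + 2) ^ 4) :=
      mul_le_mul b0 b2 p2.le (le_trans p0.le b0)
    have h2 : (lP 162 ((m : ℚ) + 5 + 1) / ((m : ℚ) + 5 + 1) ^ 4) ^ 2 ≤ aq (m + 5 + 1) ^ 2 := by
      apply pow_le_pow_left₀ _ b1
      positivity
    refine lt_of_le_of_lt h1 (lt_of_lt_of_le ?_ h2)
    rw [div_mul_div_comm, div_pow, div_lt_div_iff₀ (by positivity) (by positivity)]
    have e : (((m : ℚ) + 5 + 1) ^ 4) ^ 2 = ((m : ℚ) + 5 + 1) ^ 8 := by ring
    rw [e]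
    linarith
  · rw [aq_eq, aq_eq, aq_eq]
    interval_cases n <;> simp only [zero_add, Nat.reduceAdd, S0, S1, S2, S3, S4, S5, S6, S7] <;> norm_num

theorem aq_lt27 (n : ℕ) : aq n < 27 := by
  have h5 : ∀ m : ℕ, aq (m + 5) < 27 := by
    intro m
    refine lt_of_le_of_lt (bounds m).2 ?_
    rw [div_lt_iff₀ (by positivity)]
    have := up27 m (by positivity)
    linarith
  have hmono : StrictMono aq := strictMono_nat_of_lt_succ aq_lt
  exact lt_of_le_of_lt (hmono.monotone (by omega : n ≤ n + 5)) (h5 n)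

end V11294.Tri
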