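import Mathlib

open Finset

namespace V11294.Tri

/-- Franel numbers -/
def fr (k : ℕ) : ℚ := ∑ j ∈ range (k + 1), (k.choose j : ℚ) ^ 3

/-- the sum `∑ C(n,k)^3 f_k` -/
def Sq (n : ℕ) : ℚ := ∑ k ∈ range (n + 1), (n.choose k : ℚ) ^ 3 * fr k

theorem ch (N k : ℕ) : (N.choose k : ℚ) * ((N : ℚ) + 1) = ((N + 1).choose k : ℚ) * ((N : ℚ) + 1 - k) := by
  by_cases h : k ≤ N + 1
  · have h1 := Nat.choose_mul_succ_eq N k
    have h2 := congrArg (Nat.cast : ℕ → ℚ) h1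
    push_cast [Nat.cast_sub h] at h2
    exact h2
  · rw [Nat.choose_eq_zero_of_lt (by omega), Nat.choose_eq_zero_of_lt (by omega)]
    simp

theorem ch' (N k : ℕ) : (N.choose (k + 1) : ℚ) * ((k : ℚ) + 1) = (N.choose k : ℚ) * ((N : ℚ) - k) := by
  by_cases h : k ≤ N
  · have h1 := Nat.choose_succ_right_eq N k
    have h2 := congrArg (Nat.cast : ℕ → ℚ) h1
    push_cast [Nat.cast_sub h] at h2
    exact h2
  · rw [Nat.choose_eq_zero_of_lt (by omega), Nat.choose_eq_zero_of_lt (by omega)]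
    simp

theorem ext_sum (n N : ℕ) (h : n ≤ N) (g : ℕ → ℚ) :
    ∑ j ∈ range (n + 1), (n.choose j : ℚ) ^ 3 * g j = ∑ j ∈ range (N + 1), (n.choose j : ℚ) ^ 3 * g j := by
  apply Finset.sum_subset
  · intro x hx
    rw [Finset.mem_range] at hx ⊢
    omega
  · intro x _ hx
    rw [Finset.mem_range] at hx
    rw [Nat.choose_eq_zero_of_lt (by omega)]
    simp

/-- certificate for the Franel recurrence -/
def pF (k j : ℚ) : ℚ :=
  (-72 - 128 * k - 74 * k ^ 2 - 14 * k ^ 3 + (78 + 93 * k + 27 * k ^ 2) * j + (-30 - 18 * k) * j ^ 2 + 4 * j ^ 3)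
    / ((k + 1) * (k + 2) ^ 3)

theorem fr_rec (k : ℕ) : ((k : ℚ) + 2) ^ 2 * fr (k + 2)
    = (7 * ((k : ℚ) + 1) ^ 2 + 7 * (k + 1) + 2) * fr (k + 1) + 8 * ((k : ℚ) + 1) ^ 2 * fr k := by
  have e2 : fr (k + 2) = ∑ j ∈ range (k + 2 + 1), ((k + 2).choose j : ℚ) ^ 3 * 1 := by simp [fr]
  have e1 : fr (k + 1) = ∑ j ∈ range (k + 2 + 1), ((k + 1).choose j : ℚ) ^ 3 * 1 := by
    rw [← ext_sum (k + 1) (k + 2) (by omega)]; simp [fr]
  have e0 : fr k = ∑ j ∈ range (k + 2 + 1), (k.choose j : ℚ) ^ 3 * 1 := by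
    rw [← ext_sum k (k + 2) (by omega)]; simp [fr]
  rw [e0, e1, e2, ← sub_eq_zero, Finset.mul_sum, Finset.mul_sum, Finset.mul_sum, ← Finset.sum_add_distrib,
    ← Finset.sum_sub_distrib]
  set G : ℕ → ℚ := fun j => ((k + 2).choose j : ℚ) ^ 3 * (j : ℚ) ^ 3 * pF k j with hG
  have hterm : ∀ j ∈ range (k + 2 + 1), ((k : ℚ) + 2) ^ 2 * (((k + 2).choose j : ℚ) ^ 3 * 1)
      - ((7 * ((k : ℚ) + 1) ^ 2 + 7 * (k + 1) + 2) * (((k + 1).choose j : ℚ) ^ 3 * 1)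
        + 8 * ((k : ℚ) + 1) ^ 2 * ((k.choose j : ℚ) ^ 3 * 1)) = G (j + 1) - G j := by
    intro j _
    have h1 := ch (k + 1) j
    have h0 := ch k j
    have h2 := ch' (k + 2) j
    push_cast at h1 h2
    have hk1 : (k : ℚ) + 1 ≠ 0 := by positivity
    have hk2 : (k : ℚ) + 2 ≠ 0 := by positivity
    have h1' : ((k + 1).choose j : ℚ) = ((k + 2).choose j : ℚ) * ((k : ℚ) + 2 - j) / (k + 2) := by
      rw [eq_div_iff hk2]
      have : (k + 1 + 1).choose j = (k + 2).choose j := rfl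
      rw [this] at h1
      linear_combination h1
    have h0' : (k.choose j : ℚ) = ((k + 2).choose j : ℚ) * ((k : ℚ) + 2 - j) / (k + 2) * ((k : ℚ) + 1 - j) / (k + 1) := by
      rw [eq_div_iff hk1, h0, h1']
    have h2' : G (j + 1) = (((k + 2).choose j : ℚ) * ((k : ℚ) + 2 - j)) ^ 3 * pF k ((j : ℚ) + 1) := by
      simp only [hG]
      rw [← h2]; push_cast; ring
    rw [h2']
    simp only [hG]
    rw [h1', h0']
    unfold pF
    generalize ((k + 2).choose j : ℚ) = c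
    field_simp
    ring
  rw [Finset.sum_congr rfl hterm, Finset.sum_range_sub]
  simp only [hG]
  rw [Nat.choose_eq_zero_of_lt (by omega : k + 2 < k + 2 + 1)]
  simp

/-- polynomial certificate -/
def aH (n k : ℚ) : ℚ :=
  ((-298296 - 786924 * n - 857931 * n ^ 2 - 494895 * n ^ 3 - 159320 * n ^ 4 - 27139 * n ^ 5 - 1911 * n ^ 6)
  + (356286 + 784003 * n + 686156 * n ^ 2 + 298506 * n ^ 3 + 64533 * n ^ 4 + 5544 * n ^ 5) * k
  + (-163251 - 288560 * n - 190747 * n ^ 2 - 55860 * n ^ 3 - 6111 * n ^ 4) * k ^ 2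
  + (33858 + 45378 * n + 20286 * n ^ 2 + 3024 * n ^ 3) * k ^ 3
  + (-2673 - 2457 * n - 567 * n ^ 2) * k ^ 4) / ((n + 2) * (n + 3)) ^ 3

def q3 (n : ℚ) : ℚ := (n + 3) ^ 4 * (21 * n ^ 2 + 49 * n + 29)
def q2 (n : ℚ) : ℚ :=
  567 * n ^ 6 + 6993 * n ^ 5 + 35433 * n ^ 4 + 94086 * n ^ 3 + 137565 * n ^ 2 + 104673 * n + 32379
def q1 (n : ℚ) : ℚ :=
  567 * n ^ 6 + 5859 * n ^ 5 + 25479 * n ^ 4 + 59730 * n ^ 3 + 79569 * n ^ 2 + 57027 * n + 17145
def q0 (n : ℚ) : ℚ := 729 * (n + 1) ^ 4 * (21 * n ^ 2 + 91 * n + 99)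

/-- `f_{k-1}` -/
def gr (k : ℕ) : ℚ := if k = 0 then 0 else fr (k - 1)

theorem fr_rec' (k : ℕ) : ((k : ℚ) + 1) ^ 2 * fr (k + 1)
    = (7 * (k : ℚ) ^ 2 + 7 * k + 2) * fr k + 8 * (k : ℚ) ^ 2 * gr k := by
  rcases k with _ | k
  · simp [fr, gr, Finset.sum_range_succ]; norm_num
  · have := fr_rec k
    simp only [gr]
    rw [if_neg (by omega), Nat.add_sub_cancel]
    push_cast
    linear_combination this

theorem Sq_rec (n : ℕ) : q3 n * Sq (n + 3) = q2 n * Sq (n + 2) - q1 n * Sq (n + 1) + q0 n * Sq n := by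
  have e3 : Sq (n + 3) = ∑ k ∈ range (n + 3 + 1), ((n + 3).choose k : ℚ) ^ 3 * fr k := rfl
  have e2 : Sq (n + 2) = ∑ k ∈ range (n + 3 + 1), ((n + 2).choose k : ℚ) ^ 3 * fr k :=
    ext_sum (n + 2) (n + 3) (by omega) fr
  have e1 : Sq (n + 1) = ∑ k ∈ range (n + 3 + 1), ((n + 1).choose k : ℚ) ^ 3 * fr k :=
    ext_sum (n + 1) (n + 3) (by omega) fr
  have e0 : Sq n = ∑ k ∈ range (n + 3 + 1), (n.choose k : ℚ) ^ 3 * fr k :=
    ext_sum n (n + 3) (by omega) fr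
  rw [e0, e1, e2, e3, ← sub_eq_zero, Finset.mul_sum, Finset.mul_sum, Finset.mul_sum, Finset.mul_sum,
    ← Finset.sum_sub_distrib, ← Finset.sum_add_distrib, ← Finset.sum_sub_distrib]
  set G : ℕ → ℚ := fun k => ((n + 3).choose k : ℚ) ^ 3 * (k : ℚ) ^ 3 *
    ((k : ℚ) ^ 2 * ((k : ℚ) - 1) * aH n k * fr k + 8 * ((n : ℚ) + 3 - k) ^ 3 * aH n (k + 1) * gr k) with hG
  have hterm : ∀ k ∈ range (n + 3 + 1), q3 n * (((n + 3).choose k : ℚ) ^ 3 * fr k)
      - (q2 n * (((n + 2).choose k : ℚ) ^ 3 * fr k) - q1 n * (((n + 1).choose k : ℚ) ^ 3 * fr k)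
        + q0 n * ((n.choose k : ℚ) ^ 3 * fr k)) = G (k + 1) - G k := by
    intro k _
    have h2 := ch (n + 2) k
    have h1 := ch (n + 1) k
    have h0 := ch n k
    have h3 := ch' (n + 3) k
    push_cast at h1 h2 h3
    have hk1 : (n : ℚ) + 1 ≠ 0 := by positivity
    have hk2 : (n : ℚ) + 2 ≠ 0 := by positivity
    have hk3 : (n : ℚ) + 3 ≠ 0 := by positivity
    have h2' : ((n + 2).choose k : ℚ) = ((n + 3).choose k : ℚ) * ((n : ℚ) + 3 - k) / (n + 3) := by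
      rw [eq_div_iff hk3]
      have : (n + 2 + 1).choose k = (n + 3).choose k := rfl
      rw [this] at h2
      linear_combination h2
    have h1' : ((n + 1).choose k : ℚ) = ((n + 3).choose k : ℚ) * ((n : ℚ) + 3 - k) / (n + 3)
        * ((n : ℚ) + 2 - k) / (n + 2) := by
      rw [eq_div_iff hk2, ← h2']
      have : (n + 1 + 1).choose k = (n + 2).choose k := rfl
      rw [this] at h1
      linear_combination h1
    have h0' : (n.choose k : ℚ) = ((n + 3).choose k : ℚ) * ((n : ℚ) + 3 - k) / (n + 3)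
        * ((n : ℚ) + 2 - k) / (n + 2) * ((n : ℚ) + 1 - k) / (n + 1) := by
      rw [eq_div_iff hk1, ← h1', h0]
    have hfr := fr_rec' k
    have h3' : G (k + 1) = (((n + 3).choose k : ℚ) * ((n : ℚ) + 3 - k)) ^ 3 *
        ((k : ℚ) * aH n ((k : ℚ) + 1) * ((7 * (k : ℚ) ^ 2 + 7 * k + 2) * fr k + 8 * (k : ℚ) ^ 2 * gr k)
          + 8 * ((n : ℚ) + 2 - k) ^ 3 * aH n ((k : ℚ) + 2) * fr k) := by
      simp only [hG]
      rw [← h3, ← hfr]
      have hg : gr (k + 1) = fr k := by simp [gr]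
      rw [hg]
      push_cast
      rw [show (k : ℚ) + 1 + 1 = k + 2 by ring]
      ring
    rw [h3']
    simp only [hG]
    rw [h2', h1', h0']
    generalize ((n + 3).choose k : ℚ) = c
    generalize fr k = F
    generalize gr k = H
    unfold q3 q2 q1 q0 aH
    field_simp
    ring
  rw [Finset.sum_congr rfl hterm, Finset.sum_range_sub]
  simp only [hG]
  rw [Nat.choose_eq_zero_of_lt (by omega : n + 3 < n + 3 + 1)]
  simp

end V11294.Tri
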